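import Pool.Agent.X305.PI.Main

/-!
# The parity theorem: all primes `ℓ`
-/

set_option autoImplicit false

open CategoryTheory AlgebraicGeometry Polynomial TensorProduct

universe u v

namespace Pool.Agent.X305.PI

open Pool.Agent.H914 VarClass Obj WeilCohomology Pool.Agent.X305.HA Pool.Agent.TH720.LB

variable {k : Type u} [Field k] {𝒱 : VarClass k} {ops : CycleOps 𝒱}

/-! ### The polynomial -/

lemma split_poly {R : ℚ[X]} (hRm : R.Monic) (hR1 : ∀ z : ℂ, aeval z R = 0 → ‖z‖ = 1)
    (hR2 : R.eval (-1) ≠ 0) : ∃ Q : ℚ[X], R = (Polynomial.X - 1) ^ R.rootMultiplicity 1 * Q ∧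
      0 < Q.eval 1 * Q.eval (-1) ∧ Q.eval 1 ≠ 0 ∧ Q.eval (-1) ≠ 0 := by
  obtain ⟨Q, hQ, hnd⟩ := Polynomial.exists_eq_pow_rootMultiplicity_mul_and_not_dvd R hRm.ne_zero 1
  rw [Polynomial.C_1] at hQ
  have h1 : Q.eval 1 ≠ 0 := fun h => hnd (Polynomial.dvd_iff_isRoot.2 h)
  have h2 : Q.eval (-1) ≠ 0 := by
    intro h
    apply hR2
    rw [hQ, Polynomial.eval_mul, h, mul_zero]
  have hX : ((Polynomial.X - 1 : ℚ[X]) ^ R.rootMultiplicity 1).Monic := by
    have := (Polynomial.monic_X_sub_C (1 : ℚ)).pow (R.rootMultiplicity 1)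
    rwa [Polynomial.C_1] at this
  have hQm : Q.Monic := hX.of_mul_monic_left (by rw [← hQ]; exact hRm)
  have hnr : ∀ x : ℝ, aeval x Q ≠ 0 := by
    intro x hx
    have h3 : aeval (x : ℂ) Q = 0 := by
      have := Polynomial.aeval_algebraMap_apply ℂ x Q
      rw [hx, map_zero] at this
      exact this
    have h4 : aeval (x : ℂ) R = 0 := by rw [hQ, map_mul, h3, mul_zero]
    have h5 := hR1 _ h4
    rw [Complex.norm_real, Real.norm_eq_abs] at h5
    rcases eq_or_eq_neg_of_abs_eq h5 with h6 | h6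
    · rw [h6] at hx
      have h7 := Polynomial.aeval_algebraMap_apply_eq_algebraMap_eval (A := ℝ) (1 : ℚ) Q
      rw [map_one, hx] at h7
      exact h1 ((map_eq_zero _).1 h7.symm)
    · rw [h6] at hx
      have h7 := Polynomial.aeval_algebraMap_apply_eq_algebraMap_eval (A := ℝ) (-1 : ℚ) Q
      rw [map_neg, map_one, hx] at h7
      exact h2 ((map_eq_zero _).1 h7.symm)
  refine ⟨Q, hQ, mul_pos (pos_of_no_root hQm hnr 1) (pos_of_no_root hQm hnr (-1)), h1, h2⟩

/-! ### Positivity on the lifted classes -/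

section Lifted

variable {B : Type} [AddCommGroup B] [Module ℚ B] (H : PolarizedHodge B)

lemma lifted_pos {r : ℕ} {b : Fin r → B} (hb : LinearIndependent ℚ b) (hH : ∀ i, H.IsHodge (b i))
    (x : Fin r → ℝ) (hx : x ≠ 0) :
    0 < x ⬝ᵥ (Matrix.of fun i j => ((H.form (b i) (b j) : ℚ) : ℝ)).mulVec x := by
  set v : RealExt B := ∑ i, x i • toReal (b i) with hv
  have hv0 : v ≠ 0 := by
    intro h
    apply hx
    have hli := toReal_indep hb
    rw [Fintype.linearIndependent_iff] at hli
    exact funext (hli x h)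
  have hfix : H.circle.act (Circle.exp (Real.pi / 2)) v = v := by
    show actLin H (Circle.exp (Real.pi / 2)) v = v
    rw [hv, map_sum]
    refine Finset.sum_congr rfl fun i _ => ?_
    rw [map_smul]
    exact congrArg (fun u => x i • u) (hH i _)
  have h1 : 0 < realForm H.form v (H.circle.act (Circle.exp (Real.pi / 2)) v) := H.pos v hv0
  rw [hfix] at h1
  have h2 : realForm H.form v v =
      x ⬝ᵥ (Matrix.of fun i j => ((H.form (b i) (b j) : ℚ) : ℝ)).mulVec x := by
    rw [hv, map_sum (realForm H.form), LinearMap.sum_apply, dotProduct]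
    refine Finset.sum_congr rfl fun i _ => ?_
    rw [map_smul (realForm H.form), LinearMap.smul_apply, smul_eq_mul, map_sum, Matrix.mulVec,
      dotProduct]
    congr 1
    refine Finset.sum_congr rfl fun j _ => ?_
    rw [map_smul, smul_eq_mul, form_base, Matrix.of_apply, mul_comm]
  rw [← h2]
  exact h1

lemma lifted_pos_rat {r : ℕ} {b : Fin r → B} (hb : LinearIndependent ℚ b)
    (hH : ∀ i, H.IsHodge (b i)) (x : Fin r → ℚ) (hx : x ≠ 0) :
    0 < x ⬝ᵥ (Matrix.of fun i j => H.form (b i) (b j)).mulVec x := by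
  have h1 := lifted_pos H hb hH (fun i => (x i : ℝ)) (by
    intro h
    apply hx
    funext i
    have := congrFun h i
    simpa using this)
  have h2 : (fun i => (x i : ℝ)) ⬝ᵥ
      (Matrix.of fun i j => ((H.form (b i) (b j) : ℚ) : ℝ)).mulVec (fun i => (x i : ℝ)) =
      ((x ⬝ᵥ (Matrix.of fun i j => H.form (b i) (b j)).mulVec x : ℚ) : ℝ) := by
    simp only [dotProduct, Matrix.mulVec, Matrix.of_apply]
    push_cast
    rfl
  rw [h2] at h1
  exact_mod_cast h1

lemma lifted_det_pos {r : ℕ} {b : Fin r → B} (hb : LinearIndependent ℚ b)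
    (hH : ∀ i, H.IsHodge (b i)) : 0 < (Matrix.of fun i j => H.form (b i) (b j)).det := by
  have h1 := det_pos_of_pos (lifted_pos H hb hH)
  have h2 : (Matrix.of fun i j => ((H.form (b i) (b j) : ℚ) : ℝ)) =
      (algebraMap ℚ ℝ).mapMatrix (Matrix.of fun i j => H.form (b i) (b j)) := by
    ext i j
    rfl
  rw [h2, ← RingHom.map_det] at h1
  have h3 : (0 : ℝ) < ((Matrix.of fun i j => H.form (b i) (b j)).det : ℚ) := h1
  exact_mod_cast h3

end Lifted

/-! ### Bilinearity of the pairing of cycles -/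

section Bil

variable {W : WeilCohomology.{u, v} ops} {X : 𝒱.Obj} {D : X.Cycles} {n g : ℕ}

lemma cyc_sum {m : ℕ} {z : Fin m → X.Cycles} (hz : ∀ i, X.IsCyc n (z i)) (a : Fin m → ℚ) :
    X.IsCyc n (∑ i, a i • z i) := by
  have : ∀ s : Finset (Fin m), X.IsCyc n (∑ i ∈ s, a i • z i) := by
    intro s
    classical
    induction s using Finset.induction_on with
    | empty => rw [Finset.sum_empty]; exact SmVar.IsCyc.zero _ _
    | insert j s hj ih =>
      rw [Finset.sum_insert hj]
      exact ((hz j).smul _).add ih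
  exact this Finset.univ

lemma cl_comb (W : WeilCohomology.{u, v} ops) {m : ℕ} (z : Fin m → X.Cycles) (a : Fin m → ℚ) :
    W.cl X (∑ i, a i • z i) = ∑ i, (a i : W.K) • W.cl X (z i) := by
  rw [map_sum]
  exact Finset.sum_congr rfl fun i _ => W.cl_smul _ _

variable (hD : X.IsCyc 1 D) (hd : 2 * n + g = X.dim)
include hD hd

lemma pairing_eq (W : WeilCohomology.{u, v} ops) {z w : X.Cycles} (hz : X.IsCyc n z)
    (hw : X.IsCyc n w) : (pairing ops X D n g z w : W.K) =
      (-1) ^ n * W.tr X (W.cl X z * (W.cl X D ^ g * W.cl X w)) := by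
  rw [pairing, ← cl_divPow', ← W.cl_mul, W.tr_cl]
  · push_cast
    rfl
  · rw [← hd, show 2 * n + g = n + (n + g) by ring]
    exact ops.mul_mem hz (divPow_mem hD g hw)

lemma pairing_symm (W : WeilCohomology.{u, v} ops) {z w : X.Cycles} (hz : X.IsCyc n z)
    (hw : X.IsCyc n w) : pairing ops X D n g z w = pairing ops X D n g w z := by
  have h1 : ((pairing ops X D n g z w : ℚ) : W.K) = ((pairing ops X D n g w z : ℚ) : W.K) := by
    rw [pairing_eq hD hd W hz hw, pairing_eq hD hd W hw hz, comm_even (W.cl_mem hz), mul_assoc,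
      comm_even (W.cl_mem hw) (W.cl X D ^ g * W.cl X z), mul_assoc, comm_even (W.cl_mem hz)]
  exact_mod_cast h1

lemma pairing_sum (W : WeilCohomology.{u, v} ops) {m : ℕ} {z : Fin m → X.Cycles}
    (hz : ∀ i, X.IsCyc n (z i)) (a : Fin m → ℚ) {w : X.Cycles} (hw : X.IsCyc n w) :
    pairing ops X D n g (∑ i, a i • z i) w = ∑ i, a i * pairing ops X D n g (z i) w := by
  have h1 : ((pairing ops X D n g (∑ i, a i • z i) w : ℚ) : W.K) =
      ((∑ i, a i * pairing ops X D n g (z i) w : ℚ) : W.K) := by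
    rw [pairing_eq hD hd W (cyc_sum hz a) hw, cl_comb, Finset.sum_mul, map_sum, Finset.mul_sum]
    push_cast
    refine Finset.sum_congr rfl fun i _ => ?_
    rw [pairing_eq hD hd W (hz i) hw, smul_mul_assoc, map_smul, smul_eq_mul]
    ring
  exact_mod_cast h1

lemma pairing_add (W : WeilCohomology.{u, v} ops) {z z' w : X.Cycles} (hz : X.IsCyc n z)
    (hz' : X.IsCyc n z') (hw : X.IsCyc n w) : pairing ops X D n g (z + z') w =
      pairing ops X D n g z w + pairing ops X D n g z' w := by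
  have h1 : ((pairing ops X D n g (z + z') w : ℚ) : W.K) =
      ((pairing ops X D n g z w + pairing ops X D n g z' w : ℚ) : W.K) := by
    push_cast
    rw [pairing_eq hD hd W (hz.add hz') hw, pairing_eq hD hd W hz hw, pairing_eq hD hd W hz' hw,
      map_add, add_mul, map_add, mul_add]
  exact_mod_cast h1

lemma pairing_zero {z w : X.Cycles} (hz : NumZero ops X n z) (hw : X.IsCyc n w) :
    pairing ops X D n g z w = 0 := by
  have h1 := hz (n + g) (divPow ops D g w) (by omega) (divPow_mem hD g hw)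
  rw [pairing, h1, mul_zero]

end Bil

end Pool.Agent.X305.PI
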