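import Pool.Agent.X305.PI.Isom

/-!
# The discriminant and the fixed space of an isometry
-/

set_option autoImplicit false

namespace Pool.Agent.X305.PI

open Module Polynomial LinearMap

variable {K : Type*} [Field K] {V : Type*} [AddCommGroup V] [Module K V]

/-- The Gram matrix. -/
def gram {t : ℕ} (B : LinearMap.BilinForm K V) (z : Fin t → V) : Matrix (Fin t) (Fin t) K :=
  Matrix.of fun i j => B (z i) (z j)

lemma toMatrix_det_change {ι : Type*} [Fintype ι] [DecidableEq ι] {κ : Type*} [Fintype κ]
    [DecidableEq κ] (B : LinearMap.BilinForm K V) (b : Basis ι K V) (b' : Basis κ K V) :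
    ∃ p : K, (LinearMap.BilinForm.toMatrix b B).det = p ^ 2 * (LinearMap.BilinForm.toMatrix b' B).det := by
  set e := b'.indexEquiv b with he
  set b'' := b'.reindex e with hb''
  have h1 := LinearMap.BilinForm.toMatrix_mul_basis_toMatrix b'' b B
  refine ⟨(b''.toMatrix b).det, ?_⟩
  rw [← h1, Matrix.det_mul, Matrix.det_mul, Matrix.det_transpose]
  have h2 : (LinearMap.BilinForm.toMatrix b'' B).det = (LinearMap.BilinForm.toMatrix b' B).det := by
    have : LinearMap.BilinForm.toMatrix b'' B = (LinearMap.BilinForm.toMatrix b' B).submatrix e.symm e.symm := by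
      ext i j
      rw [LinearMap.BilinForm.toMatrix_apply, Matrix.submatrix_apply,
        LinearMap.BilinForm.toMatrix_apply, hb'', Basis.reindex_apply, Basis.reindex_apply]
    rw [this, Matrix.det_submatrix_equiv_self]
  rw [h2]
  ring

variable [CharZero K] [FiniteDimensional K V]

/-- **Discriminants**: `disc V = disc N · Q(1) Q(-1)` up to squares, if the fixed vectors
`z 1, ..., z t` of the isometry `F` span the generalised eigenspace for `1` and the characteristic
polynomial is `(X - 1)^t Q` with `Q(-1) ≠ 0`. -/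
theorem disc_split {B : LinearMap.BilinForm K V} (hB : ∀ x y, B x y = B y x)
    (hnd : ∀ x, (∀ y, B x y = 0) → x = 0) {F : Module.End K V} (hF : ∀ x y, B (F x) (F y) = B x y)
    {t : ℕ} {z : Fin t → V} (hz : LinearIndependent K z) (hfix : ∀ i, F (z i) = z i) {Q : K[X]}
    (hchar : F.charpoly = (X - 1) ^ t * Q) (h1 : Q.eval 1 ≠ 0) (h2 : Q.eval (-1) ≠ 0)
    {ι : Type*} [Fintype ι] [DecidableEq ι] (b : Basis ι K V) :
    (gram B z).det ≠ 0 ∧ ∃ c : K, (LinearMap.BilinForm.toMatrix b B).det * (gram B z).det *
      (Q.eval 1 * Q.eval (-1)) = c ^ 2 := by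
  classical
  set N : Submodule K V := Submodule.span K (Set.range z) with hN
  have hQ0 : Q ≠ 0 := by
    rintro rfl
    rw [eval_zero] at h1
    exact h1 rfl
  -- the generalised eigenspace
  have hfixN : ∀ x ∈ N, F x = x := by
    intro x hx
    refine Submodule.span_induction (p := fun x _ => F x = x) ?_ ?_ ?_ ?_ hx
    · rintro _ ⟨i, rfl⟩
      exact hfix i
    · exact map_zero F
    · intro x y _ _ h3 h4
      rw [map_add, h3, h4]
    · intro a x _ h3
      rw [map_smul, h3]
  have hNmax : N = F.maxGenEigenspace 1 := by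
    apply Submodule.eq_of_le_of_finrank_eq
    · intro x hx
      rw [Module.End.mem_maxGenEigenspace]
      refine ⟨1, ?_⟩
      rw [pow_one, LinearMap.sub_apply, LinearMap.smul_apply, Module.End.one_apply, one_smul,
        hfixN x hx, sub_self]
    · rw [LinearMap.finrank_maxGenEigenspace_eq, hchar]
      have h3 : ((X - 1 : K[X]) ^ t * Q) ≠ 0 := mul_ne_zero (pow_ne_zero _ (by
        have := X_sub_C_ne_zero (1 : K)
        rwa [C_1] at this)) hQ0
      rw [rootMultiplicity_mul h3]
      have h4 : rootMultiplicity 1 Q = 0 := rootMultiplicity_eq_zero h1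
      have h5 : rootMultiplicity 1 ((X - 1 : K[X]) ^ t) = t := by
        have := rootMultiplicity_X_sub_C_pow (1 : K) t
        rwa [C_1] at this
      rw [h4, h5, add_zero, hN, finrank_span_eq_card hz, Fintype.card_fin]
  have hmem : ∀ (k : ℕ) (y : V), ((F - 1) ^ k) y = 0 → y ∈ N := by
    intro k y hy
    rw [hNmax, Module.End.mem_maxGenEigenspace]
    exact ⟨k, by rw [one_smul]; exact hy⟩
  -- coprimality
  have hcop : IsCoprime ((X - 1 : K[X]) ^ t) Q := by
    apply IsCoprime.pow_left
    have h3 : IsCoprime (X - C (1 : K)) Q := by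
      rw [(irreducible_X_sub_C (1 : K)).coprime_iff_not_dvd]
      intro h4
      exact h1 (dvd_iff_isRoot.1 h4)
    rwa [C_1] at h3
  obtain ⟨u, v, huv⟩ := hcop
  have hCH : aeval F ((X - 1) ^ t * Q) = 0 := by
    rw [← hchar]
    exact LinearMap.aeval_self_charpoly F
  have hX1 : ∀ k : ℕ, aeval F ((X - 1 : K[X]) ^ k) = (F - 1) ^ k := by
    intro k
    rw [map_pow, map_sub, aeval_X, map_one]
  have hdec : ∀ y : V, y = ((F - 1) ^ t) (aeval F u y) + aeval F Q (aeval F v y) := by
    intro y
    have h3 := congrArg (fun p : K[X] => aeval F p y) huv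
    simp only [map_add, map_mul, map_one, Module.End.one_apply, hX1] at h3
    have h4 : ∀ p q : K[X], aeval F p * aeval F q = aeval F q * aeval F p := fun p q => by
      rw [← map_mul, mul_comm, map_mul]
    rw [LinearMap.add_apply] at h3
    rw [← hX1, h4, h4 v Q, hX1] at h3
    exact h3.symm
  have hkill : ∀ y : V, ((F - 1) ^ t) (aeval F Q y) = 0 := by
    intro y
    rw [map_mul, hX1] at hCH
    have := congrArg (fun p : Module.End K V => p y) hCH
    exact this
  -- fixed vectors are orthogonal to the image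
  have horth1 : ∀ x ∈ N, ∀ y : V, B x ((F - 1) y) = 0 := by
    intro x hx y
    rw [LinearMap.sub_apply, Module.End.one_apply, map_sub]
    have h3 := hF x y
    rw [hfixN x hx] at h3
    rw [h3, sub_self]
  have horth : ∀ x ∈ N, ∀ (k : ℕ) (y : V), 0 < k → B x (((F - 1) ^ k) y) = 0 := by
    intro x hx k y hk
    obtain ⟨k, rfl⟩ : ∃ k', k = k' + 1 := ⟨k - 1, by omega⟩
    rw [pow_succ']
    exact horth1 x hx _
  have hresN : ∀ x ∈ N, (∀ y ∈ N, B x y = 0) → x = 0 := by
    intro x hx h3
    rcases Nat.eq_zero_or_pos t with ht | ht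
    · subst ht
      have : N = ⊥ := by
        rw [hN, Set.range_eq_empty, Submodule.span_empty]
      rw [this, Submodule.mem_bot] at hx
      exact hx
    · apply hnd
      intro y
      rw [hdec y, map_add, horth x hx t _ ht, zero_add]
      exact h3 _ (hmem t _ (hkill _))
  -- the complement
  have hrefl : B.IsRefl := fun x y h => by rw [hB]; exact h
  set T := B.orthogonal N with hT
  have hdis : Disjoint N T := by
    rw [Submodule.disjoint_def]
    intro x hx hxT
    refine hresN x hx fun y hy => ?_
    have := (LinearMap.BilinForm.mem_orthogonal_iff.1 hxT) y hy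
    rw [hB]
    exact this
  have hcompl : IsCompl N T := (LinearMap.BilinForm.isCompl_orthogonal_iff_disjoint hrefl).2 hdis
  have hFT : ∀ x ∈ T, F x ∈ T := by
    intro x hx
    rw [hT, LinearMap.BilinForm.mem_orthogonal_iff]
    intro y hy
    have h3 := hF y x
    rw [hfixN y hy] at h3
    show B y (F x) = 0
    rw [h3]
    exact (LinearMap.BilinForm.mem_orthogonal_iff.1 hx) y hy
  set FT : Module.End K T := F.restrict hFT with hFTd
  set E := Submodule.prodEquivOfIsCompl N T hcompl with hE
  have hEap : ∀ p : N × T, E p = (p.1 : V) + p.2 := fun p => by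
    rw [hE, Submodule.coe_prodEquivOfIsCompl']
  have hconj : E.conj ((LinearMap.id : Module.End K N).prodMap FT) = F := by
    apply LinearMap.ext
    intro y
    obtain ⟨p, rfl⟩ := E.surjective y
    rw [LinearEquiv.conj_apply_apply, LinearEquiv.symm_apply_apply, hEap, hEap, map_add,
      hfixN _ p.1.2]
    rfl
  have hcharT : FT.charpoly = Q := by
    have h3 : F.charpoly = (LinearMap.id : Module.End K N).charpoly * FT.charpoly := by
      rw [← LinearMap.charpoly_prodMap, ← hconj, LinearEquiv.charpoly_conj]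
    have h4 : (LinearMap.id : Module.End K N).charpoly = (X - 1) ^ t := by
      have h5 := LinearMap.charpoly_one (R := K) (M := N)
      rw [hN, finrank_span_eq_card hz, Fintype.card_fin] at h5
      exact h5
    rw [hchar, h4] at h3
    exact (mul_left_cancel₀ (pow_ne_zero _ (by
      have := X_sub_C_ne_zero (1 : K)
      rwa [C_1] at this)) h3).symm
  -- bases
  set bN : Basis (Fin t) K N := Basis.span hz with hbN
  have hbNap : ∀ i, (bN i : V) = z i := fun i => by
    rw [hbN, Basis.span_apply]
  set m := finrank K T with hm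
  set bT : Basis (Fin m) K T := finBasis K T with hbT
  set b' : Basis (Fin t ⊕ Fin m) K V := (bN.prod bT).map E with hb'
  have hb'l : ∀ i, b' (Sum.inl i) = z i := by
    intro i
    rw [hb', Basis.map_apply, Basis.prod_apply, hEap]
    simp only [Sum.elim_inl, Function.comp_apply]
    simp [hbNap]
  have hb'r : ∀ i, b' (Sum.inr i) = (bT i : V) := by
    intro i
    rw [hb', Basis.map_apply, Basis.prod_apply, hEap]
    simp
  set A := LinearMap.toMatrix bT bT FT with hA
  set M := LinearMap.BilinForm.toMatrix bT (B.restrict T) with hM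
  have hMap : ∀ i j, M i j = B (bT i) (bT j) := fun i j => by
    rw [hM, LinearMap.BilinForm.toMatrix_apply]
    rfl
  have hblock : LinearMap.BilinForm.toMatrix b' B = Matrix.fromBlocks (gram B z) 0 0 M := by
    ext i j
    rw [LinearMap.BilinForm.toMatrix_apply]
    rcases i with i | i <;> rcases j with j | j
    · rw [hb'l, hb'l]; rfl
    · rw [hb'l, hb'r]
      have h3 := (LinearMap.BilinForm.mem_orthogonal_iff.1 (bT j).2) (z i)
        (Submodule.subset_span ⟨i, rfl⟩)
      exact h3
    · rw [hb'l, hb'r, hB]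
      have h3 := (LinearMap.BilinForm.mem_orthogonal_iff.1 (bT i).2) (z j)
        (Submodule.subset_span ⟨j, rfl⟩)
      exact h3
    · rw [hb'r, hb'r]
      exact (hMap i j).symm
  have hdetb' : (LinearMap.BilinForm.toMatrix b' B).det = (gram B z).det * M.det := by
    rw [hblock, Matrix.det_fromBlocks_zero₂₁]
  have hdet0 : (LinearMap.BilinForm.toMatrix b' B).det ≠ 0 := by
    have h3 : B.Nondegenerate :=
      ⟨fun x h => hnd x h, fun y h => hnd y fun x => by rw [hB]; exact h x⟩
    exact (LinearMap.BilinForm.nondegenerate_iff_det_ne_zero b').1 h3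
  rw [hdetb'] at hdet0
  have hG0 := left_ne_zero_of_mul hdet0
  have hM0 := right_ne_zero_of_mul hdet0
  refine ⟨hG0, ?_⟩
  have hMt : M.transpose = M := by
    ext i j
    rw [Matrix.transpose_apply, hMap, hMap, hB]
  have hAM : A.transpose * M * A = M := by
    have h3 := LinearMap.BilinForm.toMatrix_comp bT bT (B.restrict T) FT FT
    rw [← hA, ← hM] at h3
    rw [← h3]
    ext i j
    rw [LinearMap.BilinForm.toMatrix_apply, hMap]
    exact hF _ _
  have hQ1 : Q.eval 1 = (1 - A).det := by
    rw [← hcharT, ← LinearMap.charpoly_toMatrix FT bT, Matrix.eval_charpoly, map_one]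
  have hQ2 : Q.eval (-1) = (-1 - A).det := by
    rw [← hcharT, ← LinearMap.charpoly_toMatrix FT bT, Matrix.eval_charpoly, map_neg, map_one]
  have hsgn1 : (1 - A).det = (-1) ^ m * (A - 1).det := by
    rw [← neg_sub, Matrix.det_neg, Fintype.card_fin]
  have hsgn2 : (-1 - A).det = (-1) ^ m * (A + 1).det := by
    rw [show (-1 - A) = -(A + 1) by abel, Matrix.det_neg, Fintype.card_fin]
  have hA1 : (A + 1).det ≠ 0 := by
    intro h3
    apply h2
    rw [hQ2, hsgn2, h3, mul_zero]
  obtain ⟨c0, hc0⟩ := disc_isom hMt hAM hM0 hA1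
  obtain ⟨p, hp⟩ := toMatrix_det_change B b b'
  refine ⟨p * (gram B z).det * c0, ?_⟩
  have h5 : ((-1 : K) ^ m) * (-1) ^ m = 1 := by rw [← mul_pow]; simp
  rw [hp, hdetb', hQ1, hQ2, hsgn1, hsgn2]
  have h6 : (-1 : K) ^ m * (A - 1).det * ((-1) ^ m * (A + 1).det) = (A - 1).det * (A + 1).det := by
    linear_combination ((A - 1).det * (A + 1).det) * h5
  rw [h6]
  linear_combination (p ^ 2 * (gram B z).det ^ 2) * hc0

end Pool.Agent.X305.PI
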