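import Pool.Agent.X305.PI.Geo

/-!
# The parity theorem
-/

set_option autoImplicit false

open CategoryTheory AlgebraicGeometry Polynomial

universe u v

namespace Pool.Agent.X305.PI

open Pool.Agent.H914 VarClass Obj WeilCohomology Pool.Agent.X305.HA Pool.Agent.TH720.LB

variable {k : Type u} [Field k] {𝒱 : VarClass k} {ops : CycleOps 𝒱}
  {W : WeilCohomology.{u, v} ops} {X : 𝒱.Obj} {D : X.Cycles} {n g : ℕ}
  {B : Type} [AddCommGroup B] [Module ℚ B] {H : PolarizedHodge B} {c : B →+ W.H X}

lemma comp_mem (hc : IsComparison W X D n g H c) (x : B) : c x ∈ prim W X D n g := by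
  obtain ⟨m, b, -, hs⟩ := hc.basis
  have h1 : x = ∑ i, b.repr x i • b i := (b.sum_repr x).symm
  rw [h1, map_sum]
  refine Submodule.sum_mem _ fun i _ => ?_
  have h2 : c (b.repr x i • b i) = ((b.repr x i : ℚ) : W.K) • c (b i) := by
    have := map_ratCast_smul c ℚ W.K (b.repr x i) (b i)
    rwa [Rat.cast_id] at this
  rw [h2]
  refine Submodule.smul_mem _ _ ?_
  rw [← hs]
  exact Submodule.subset_span ⟨i, rfl⟩

/-- the basis of the primitive cohomology given by the comparison -/
lemma exists_basis (hc : IsComparison W X D n g H c) : ∃ (m : ℕ) (b : Module.Basis (Fin m) ℚ B)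
    (b' : Module.Basis (Fin m) W.K (prim W X D n g)),
    LinearMap.BilinForm.toMatrix b' (frm W X D n g) =
      (algebraMap ℚ W.K).mapMatrix (LinearMap.BilinForm.toMatrix b H.form) := by
  obtain ⟨m, b, hli, hs⟩ := hc.basis
  have hv : ∀ i, c (b i) ∈ prim W X D n g := fun i => comp_mem hc _
  set v : Fin m → prim W X D n g := fun i => ⟨c (b i), hv i⟩ with hvd
  have hli' : LinearIndependent W.K v := by
    apply LinearIndependent.of_comp (prim W X D n g).subtype
    exact hli
  have hsp : ⊤ ≤ Submodule.span W.K (Set.range v) := by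
    rintro ⟨x, hx⟩ -
    rw [← hs] at hx
    have h1 : (Submodule.span W.K (Set.range v)).map (prim W X D n g).subtype =
        Submodule.span W.K (Set.range fun i => c (b i)) := by
      rw [Submodule.map_span, ← Set.range_comp]
      rfl
    rw [← h1] at hx
    obtain ⟨y, hy, hyx⟩ := hx
    have : y = ⟨x, by rw [← hyx]; exact y.2⟩ := Subtype.ext hyx
    rw [← this]
    exact hy
  refine ⟨m, b, Module.Basis.mk hli' hsp, ?_⟩
  ext i j
  rw [LinearMap.BilinForm.toMatrix_apply, Module.Basis.mk_apply, Module.Basis.mk_apply,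
    RingHom.mapMatrix_apply, Matrix.map_apply, LinearMap.BilinForm.toMatrix_apply, frm_apply]
  exact hc.form _ _

variable (hD : X.IsCyc 1 D) (hd : 2 * n + g = X.dim)
include hD hd

/-- a family of cycles, for one cohomology theory -/
theorem family_one (hA : LefschetzA W X D) {f : X ⟶ X} {q : ℕ} (hq : 0 < q) {R Q : ℚ[X]}
    (hf : IsFrobenius W X D f q n g R) (hc : IsComparison W X D n g H c) {t : ℕ}
    (hR : R = (Polynomial.X - 1) ^ t * Q) (h1 : Q.eval 1 ≠ 0) (h2 : Q.eval (-1) ≠ 0) {s : ℕ}
    {z : Fin s → X.Cycles} (hz : ∀ i, NumPrimitive ops X D n g (z i))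
    (hi : NumIndependent ops X n z) {κ : Type} [Fintype κ] [DecidableEq κ]
    (b0 : Module.Basis κ ℚ B) :
    s ≤ t ∧ (s = t → (Matrix.of fun i j => pairing ops X D n g (z i) (z j)).det ≠ 0 ∧
      IsSquare (((LinearMap.BilinForm.toMatrix b0 H.form).det *
        (Matrix.of fun i j => pairing ops X D n g (z i) (z j)).det *
          (Q.eval 1 * Q.eval (-1)) : ℚ) : W.K)) := by
  choose d hd1 hd2 hd3 using fun i => exists_prim (W := W) hD hd hA (hz i)
  set v : Fin s → prim W X D n g := fun i => ⟨d i, hd2 i⟩ with hv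
  have hli : LinearIndependent W.K v := indep hD hd (fun i => (hz i).1) hi (c := v) hd3
  obtain ⟨F, hF', hchar⟩ := hf.charpoly
  have hF : ∀ x, (q : W.K) ^ n • (F x : W.H X) = W.map f x := fun x => by
    have := hF' x
    rwa [Nat.cast_pow] at this
  rw [show Rat.castHom W.K = algebraMap ℚ W.K from Subsingleton.elim _ _] at hchar
  have hq0 : (q : W.K) ^ n ≠ 0 := pow_ne_zero _ (by exact_mod_cast hq.ne')
  have hfix : ∀ i, F (v i) = v i := by
    intro i
    apply Subtype.ext
    have h3 := hF (v i)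
    obtain ⟨y, hy, hyd⟩ := hd1 i
    have h4 : W.map f (v i : W.H X) = (q : W.K) ^ n • (v i : W.H X) := by
      show W.map f (d i) = (q : W.K) ^ n • (d i)
      rw [← hyd]
      exact hf.map_cycle' y hy
    rw [h4] at h3
    exact smul_right_injective _ hq0 h3
  have hQ1 : (Q.map (algebraMap ℚ W.K)).eval 1 = ((Q.eval 1 : ℚ) : W.K) := by
    have := Polynomial.eval_map_algebraMap Q (1 : W.K)
    rw [this, show (1 : W.K) = algebraMap ℚ W.K 1 by rw [map_one],
      Polynomial.aeval_algebraMap_apply_eq_algebraMap_eval]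
    rfl
  have hQ2 : (Q.map (algebraMap ℚ W.K)).eval (-1) = ((Q.eval (-1) : ℚ) : W.K) := by
    have := Polynomial.eval_map_algebraMap Q (-1 : W.K)
    rw [this, show (-1 : W.K) = algebraMap ℚ W.K (-1) by rw [map_neg, map_one],
      Polynomial.aeval_algebraMap_apply_eq_algebraMap_eval]
    rfl
  have hRm : F.charpoly = (Polynomial.X - 1) ^ t * Q.map (algebraMap ℚ W.K) := by
    rw [hchar, hR, Polynomial.map_mul, Polynomial.map_pow, Polynomial.map_sub, Polynomial.map_X,
      Polynomial.map_one]
  have hQ1' : (Q.map (algebraMap ℚ W.K)).eval 1 ≠ 0 := by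
    rw [hQ1]
    exact_mod_cast h1
  have hQ2' : (Q.map (algebraMap ℚ W.K)).eval (-1) ≠ 0 := by
    rw [hQ2]
    exact_mod_cast h2
  refine ⟨?_, ?_⟩
  · -- dimension count
    have h3 : Submodule.span W.K (Set.range v) ≤ F.maxGenEigenspace 1 := by
      rw [Submodule.span_le]
      rintro _ ⟨i, rfl⟩
      rw [SetLike.mem_coe, Module.End.mem_maxGenEigenspace]
      refine ⟨1, ?_⟩
      rw [pow_one, LinearMap.sub_apply, LinearMap.smul_apply, Module.End.one_apply, one_smul,
        hfix, sub_self]
    have h4 := Submodule.finrank_mono h3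
    rw [finrank_span_eq_card hli, Fintype.card_fin, LinearMap.finrank_maxGenEigenspace_eq,
      hRm] at h4
    have hX0 : (Polynomial.X - 1 : (W.K)[X]) ≠ 0 := by
      have := Polynomial.X_sub_C_ne_zero (1 : W.K)
      rwa [Polynomial.C_1] at this
    have hQ0 : Q.map (algebraMap ℚ W.K) ≠ 0 := by
      intro h
      rw [h, Polynomial.eval_zero] at hQ1'
      exact hQ1' rfl
    rw [Polynomial.rootMultiplicity_mul (mul_ne_zero (pow_ne_zero _ hX0) hQ0),
      Polynomial.rootMultiplicity_eq_zero (p := Q.map (algebraMap ℚ W.K)) hQ1'] at h4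
    have h5 : Polynomial.rootMultiplicity 1 ((Polynomial.X - 1 : (W.K)[X]) ^ t) = t := by
      have := Polynomial.rootMultiplicity_X_sub_C_pow (1 : W.K) t
      rwa [Polynomial.C_1] at this
    rw [h5, add_zero] at h4
    exact h4
  · rintro rfl
    obtain ⟨m, b, b', hb'⟩ := exists_basis hc
    have hpos := det_form_pos H b
    have hdet : (LinearMap.BilinForm.toMatrix b' (frm W X D n g)).det =
        (((LinearMap.BilinForm.toMatrix b H.form).det : ℚ) : W.K) := by
      rw [hb', ← RingHom.map_det]
      rfl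
    have hdet0 : (LinearMap.BilinForm.toMatrix b' (frm W X D n g)).det ≠ 0 := by
      rw [hdet]
      exact_mod_cast hpos.ne'
    have hnd : ∀ x, (∀ y, frm W X D n g x y = 0) → x = 0 := by
      have h3 := (LinearMap.BilinForm.nondegenerate_iff_det_ne_zero b').2 hdet0
      exact fun x hx => h3.1 x hx
    obtain ⟨h3, r, h4⟩ := disc_split frm_symm hnd (frm_isom hq hd hf hF) hli hfix hRm hQ1' hQ2' b'
    have hgram : gram (frm W X D n g) v = (algebraMap ℚ W.K).mapMatrix
        (Matrix.of fun i j => pairing ops X D n g (z i) (z j)) := by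
      ext i j
      rw [RingHom.mapMatrix_apply, Matrix.map_apply]
      exact frm_cyc hD hd (hz i).1 (hz j).1 (hd1 i) (hd3 i) (hd3 j)
    have hgd : (gram (frm W X D n g) v).det =
        (((Matrix.of fun i j => pairing ops X D n g (z i) (z j)).det : ℚ) : W.K) := by
      rw [hgram, ← RingHom.map_det]
      rfl
    rw [hgd] at h3
    refine ⟨fun h => h3 (by rw [h, Rat.cast_zero]), ?_⟩
    obtain ⟨p, hp⟩ := toMatrix_det_change H.form b b0
    have hp0 : (p : W.K) ≠ 0 := by
      intro h
      have : p = 0 := by exact_mod_cast h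
      rw [this] at hp
      rw [hp] at hpos
      simp at hpos
    refine ⟨r / p, ?_⟩
    rw [hgd, hdet, hQ1, hQ2, hp] at h4
    push_cast at h4 ⊢
    field_simp
    linear_combination h4

end Pool.Agent.X305.PI
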