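import Mathlib

/-!
# Polarized rational Hodge structures: the discriminant is positive
-/

set_option autoImplicit false

namespace Pool.Agent.X305.PI

open Module TensorProduct

/-- A real matrix `N` with `x · N x > 0` for all `x ≠ 0` has positive determinant. -/
lemma det_pos_of_pos {ι : Type*} [Fintype ι] [DecidableEq ι] {N : Matrix ι ι ℝ}
    (h : ∀ x : ι → ℝ, x ≠ 0 → 0 < x ⬝ᵥ N.mulVec x) : 0 < N.det := by
  set f : ℝ → ℝ := fun t => (t • N + (1 - t) • (1 : Matrix ι ι ℝ)).det with hf
  have hc : Continuous f := by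
    rw [hf]
    apply Continuous.matrix_det
    fun_prop
  have hne : ∀ t ∈ Set.Icc (0 : ℝ) 1, f t ≠ 0 := by
    intro t ht h0
    obtain ⟨x, hx, hx0⟩ := (Matrix.exists_mulVec_eq_zero_iff).2 h0
    have h1 : x ⬝ᵥ (t • N + (1 - t) • (1 : Matrix ι ι ℝ)).mulVec x = 0 := by
      rw [hx0, dotProduct_zero]
    rw [Matrix.add_mulVec, Matrix.smul_mulVec, Matrix.smul_mulVec, Matrix.one_mulVec,
      dotProduct_add, dotProduct_smul, dotProduct_smul, smul_eq_mul, smul_eq_mul] at h1
    have h2 := h x hx
    have h3 : 0 < x ⬝ᵥ x := by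
      rw [dotProduct]
      obtain ⟨i, hi⟩ : ∃ i, x i ≠ 0 := by
        by_contra hcon
        push Not at hcon
        exact hx (funext hcon)
      have : 0 < x i * x i := mul_self_pos.2 hi
      refine Finset.sum_pos' (fun j _ => mul_self_nonneg _) ⟨i, Finset.mem_univ i, this⟩
    rcases eq_or_lt_of_le ht.1 with h4 | h4
    · rw [← h4] at h1
      linarith
    · have h5 : 0 < t * (x ⬝ᵥ N.mulVec x) := mul_pos h4 h2
      have h6 : 0 ≤ (1 - t) * (x ⬝ᵥ x) := mul_nonneg (by linarith [ht.2]) h3.le
      linarith
  have h0 : f 0 = 1 := by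
    rw [hf]
    simp
  have h1 : f 1 = N.det := by
    rw [hf]
    simp
  rw [← h1]
  by_contra hcon
  push Not at hcon
  obtain ⟨c, hc1, hc2⟩ := intermediate_value_Icc' (zero_le_one (α := ℝ)) hc.continuousOn
    (show (0 : ℝ) ∈ Set.Icc (f 1) (f 0) from ⟨hcon, by rw [h0]; norm_num⟩)
  exact hne c hc1 hc2

/-- The real vector space `ℝ ⊗ B`. -/
def RealExt (B : Type) [AddCommGroup B] [Module ℚ B] : Type := ℝ ⊗[ℚ] B

section

variable {B : Type} [AddCommGroup B] [Module ℚ B]

noncomputable instance : AddCommGroup (RealExt B) := inferInstanceAs (AddCommGroup (ℝ ⊗[ℚ] B))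

noncomputable instance : Module ℝ (RealExt B) := inferInstanceAs (Module ℝ (ℝ ⊗[ℚ] B))

/-- The element `1 ⊗ x` of `ℝ ⊗ B`. -/
noncomputable def toReal (x : B) : RealExt B := (1 : ℝ) ⊗ₜ[ℚ] x

/-- The extension of a rational bilinear form on `B` to `ℝ ⊗ B`. -/
noncomputable def realForm (f : LinearMap.BilinForm ℚ B) : LinearMap.BilinForm ℝ (RealExt B) :=
  LinearMap.BilinForm.baseChange ℝ f

/-- The value of the extension of a rational bilinear form on `B` to `ℝ ⊗ B`. -/
noncomputable def realValue (f : LinearMap.BilinForm ℚ B) (x y : RealExt B) : ℝ := realForm f x y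

end

/-- A linear action of the circle on a real vector space. -/
structure CircleAction (V : Type) [AddCommGroup V] [Module ℝ V] where
  /-- the action -/
  act : Circle → V → V
  linear : ∀ z, IsLinearMap ℝ (act z)
  one : ∀ x, act 1 x = x
  mul : ∀ z w x, act (z * w) x = act z (act w x)

/-- A polarized rational Hodge structure of weight zero on `B`: an action of the circle on the real
vector space `ℝ ⊗ B` (in which `z` acts by `z ^ (2 a)` on the classes of type `(a, -a)`, so that `-1`
acts trivially) and a symmetric rational bilinear form, invariant under the circle, such that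
`form x (i x) > 0` for all real `x ≠ 0` (the Hodge-Riemann relations; `i` acts by `(-1) ^ a` on the
classes of type `(a, -a)`). -/
structure PolarizedHodge (B : Type) [AddCommGroup B] [Module ℚ B] where
  /-- the polarization -/
  form : LinearMap.BilinForm ℚ B
  symm : ∀ x y, form x y = form y x
  /-- the action of the circle -/
  circle : CircleAction (RealExt B)
  neg_one : ∀ x, circle.act (Circle.exp Real.pi) x = x
  isom : ∀ z x y, realValue form (circle.act z x) (circle.act z y) = realValue form x y
  pos : ∀ x, x ≠ 0 → 0 < realValue form x (circle.act (Circle.exp (Real.pi / 2)) x)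

variable {B : Type} [AddCommGroup B] [Module ℚ B]

/-- The class `x` is a Hodge class. -/
def PolarizedHodge.IsHodge (H : PolarizedHodge B) (x : B) : Prop :=
  ∀ z, H.circle.act z (toReal x) = toReal x

/-- the action as a linear map -/
noncomputable def actLin (H : PolarizedHodge B) (z : Circle) : Module.End ℝ (RealExt B) :=
  (H.circle.linear z).mk' _

lemma form_base (H : PolarizedHodge B) (x y : B) :
    realForm H.form (toReal x) (toReal y) = ((H.form x y : ℚ) : ℝ) := by
  show H.form.baseChange ℝ ((1 : ℝ) ⊗ₜ[ℚ] x) ((1 : ℝ) ⊗ₜ[ℚ] y) = _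
  rw [LinearMap.BilinForm.baseChange_tmul]
  simp

/-- the real basis given by a rational basis -/
noncomputable def realBasis {ι : Type*} (b : Basis ι ℚ B) : Basis ι ℝ (RealExt B) :=
  (b.baseChange ℝ : Basis ι ℝ (ℝ ⊗[ℚ] B))

lemma realBasis_apply {ι : Type*} (b : Basis ι ℚ B) (i : ι) : realBasis b i = toReal (b i) :=
  Basis.baseChange_apply _ _ _

/-- A bilinear form `f` on a real space with `f x (C x) > 0` for `x ≠ 0`, with `det C ≥ 0`, has
positive discriminant. -/
lemma det_pos_real {V : Type*} [AddCommGroup V] [Module ℝ V] {ι : Type*} [Fintype ι] [DecidableEq ι]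
    (b : Basis ι ℝ V) (f : LinearMap.BilinForm ℝ V) (C D : Module.End ℝ V) (hCD : C = D * D)
    (h : ∀ x, x ≠ 0 → 0 < f x (C x)) : 0 < (LinearMap.BilinForm.toMatrix b f).det := by
  have hdC : 0 ≤ (LinearMap.toMatrix b b C).det := by
    rw [hCD, LinearMap.toMatrix_mul, Matrix.det_mul]
    exact mul_self_nonneg _
  have hN : 0 < (LinearMap.BilinForm.toMatrix b f * LinearMap.toMatrix b b C).det := by
    apply det_pos_of_pos
    intro x hx
    rw [← LinearMap.BilinForm.toMatrix_compRight b f C,
      LinearMap.BilinForm.dotProduct_toMatrix_mulVec]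
    exact h _ (fun h2 => hx (b.equivFun.symm.map_eq_zero_iff.1 h2))
  rw [Matrix.det_mul] at hN
  exact pos_of_mul_pos_left hN hdC

/-- **The discriminant of a polarized Hodge structure is positive.** -/
theorem det_form_pos (H : PolarizedHodge B) {ι : Type*} [Fintype ι] [DecidableEq ι]
    (b : Basis ι ℚ B) : 0 < (LinearMap.BilinForm.toMatrix b H.form).det := by
  have hmap : LinearMap.BilinForm.toMatrix (realBasis b) (realForm H.form) =
      (algebraMap ℚ ℝ).mapMatrix (LinearMap.BilinForm.toMatrix b H.form) := by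
    ext i j
    rw [LinearMap.BilinForm.toMatrix_apply, realBasis_apply, realBasis_apply, form_base,
      RingHom.mapMatrix_apply, Matrix.map_apply, LinearMap.BilinForm.toMatrix_apply]
    rfl
  have h4 := det_pos_real (realBasis b) (realForm H.form)
    (actLin H (Circle.exp (Real.pi / 2))) (actLin H (Circle.exp (Real.pi / 4))) (by
      apply LinearMap.ext
      intro x
      show H.circle.act (Circle.exp (Real.pi / 2)) x =
        H.circle.act (Circle.exp (Real.pi / 4)) (H.circle.act (Circle.exp (Real.pi / 4)) x)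
      rw [← H.circle.mul, ← Circle.exp_add]
      congr 2
      ring) H.pos
  rw [hmap, ← RingHom.map_det] at h4
  have h5 : (0 : ℝ) < ((LinearMap.BilinForm.toMatrix b H.form).det : ℚ) := h4
  exact_mod_cast h5

lemma toReal_ne {x : B} (h0 : x ≠ 0) : toReal x ≠ 0 := by
  intro h
  have h1 := Module.Flat.tensorProduct_mk_injective ℚ B ℝ
  apply h0
  apply h1
  rw [map_zero]
  exact h

lemma toReal_indep {r : ℕ} {b : Fin r → B} (hb : LinearIndependent ℚ b) :
    LinearIndependent ℝ (fun i => toReal (b i)) :=
  Module.Flat.linearIndependent_one_tmul (S := ℝ) hb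

/-- The form is positive on Hodge classes. -/
theorem form_pos (H : PolarizedHodge B) {x : B} (hx : H.IsHodge x) (h0 : x ≠ 0) :
    0 < H.form x x := by
  have h2 := H.pos _ (toReal_ne h0)
  rw [hx, realValue, form_base] at h2
  exact_mod_cast h2

end Pool.Agent.X305.PI
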