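import Mathlib

/-!
# Rational numbers which are squares in almost all completions are positive; positive polynomials
-/

set_option autoImplicit false

namespace Pool.Agent.X305.PI

open Polynomial

lemma jacobi_neg {m : ℕ} (hm : 0 < m) : jacobiSym (-(m : ℤ)) (4 * m - 1) = -1 := by
  set b : ℕ := 4 * m - 1 with hb
  have hb4 : b % 4 = 3 := by omega
  have hodd : Odd b := Nat.odd_iff.2 (by omega)
  have h4 : jacobiSym (4 : ℤ) b = 1 := by
    have h2 : (4 : ℤ) = 2 ^ 2 := by norm_num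
    rw [h2, jacobiSym.pow_left]
    apply jacobiSym.sq_one
    have : Nat.Coprime 2 b := (Nat.coprime_two_left).2 hodd
    simpa [Int.gcd, Int.natAbs] using this
  have h1 : jacobiSym (-(m : ℤ)) b = jacobiSym (4 * -(m : ℤ)) b := by
    rw [jacobiSym.mul_left, h4, one_mul]
  rw [h1]
  have h5 : (4 * -(m : ℤ)) % (b : ℤ) = (-1) % (b : ℤ) := by
    have e : (4 * -(m : ℤ)) = -1 + (b : ℤ) * (-1) := by
      rw [hb]
      push_cast [show 1 ≤ 4 * m by omega]
      ring
    rw [e, Int.add_mul_emod_self_left]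
  rw [jacobiSym.mod_left' h5, jacobiSym.at_neg_one hodd, ZMod.χ₄_nat_three_mod_four hb4]

/-- For every negative integer there are arbitrarily large primes modulo which it is not a square. -/
lemma exists_prime {m : ℕ} (hm : 0 < m) (B : ℕ) : ∃ ℓ : ℕ, B < ℓ ∧ ℓ.Prime ∧
    jacobiSym (-(m : ℤ)) ℓ = -1 := by
  have : NeZero (4 * m) := ⟨by omega⟩
  have hu : IsUnit ((-1 : ZMod (4 * m))) := isUnit_one.neg
  obtain ⟨ℓ, hℓ, hp, hmod⟩ := Nat.forall_exists_prime_gt_and_eq_mod hu (max B (2 * m))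
  have hB : B < ℓ := lt_of_le_of_lt (le_max_left _ _) hℓ
  have h2m : 2 * m < ℓ := lt_of_le_of_lt (le_max_right _ _) hℓ
  refine ⟨ℓ, hB, hp, ?_⟩
  have hodd : Odd ℓ := hp.odd_of_ne_two (by omega)
  rw [jacobiSym.mod_right _ hodd]
  have h3 : ℓ % (4 * (-(m : ℤ)).natAbs) = 4 * m - 1 := by
    rw [Int.natAbs_neg, Int.natAbs_natCast]
    have h4 : ((ℓ + 1 : ℕ) : ZMod (4 * m)) = 0 := by
      push_cast
      rw [hmod]
      ring
    rw [ZMod.natCast_eq_zero_iff] at h4
    obtain ⟨c, hc⟩ := h4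
    have hc0 : 0 < c := by
      rcases Nat.eq_zero_or_pos c with h | h
      · rw [h, mul_zero] at hc
        omega
      · exact h
    obtain ⟨c', rfl⟩ : ∃ c', c = c' + 1 := ⟨c - 1, by omega⟩
    have h5 : ℓ = 4 * m - 1 + 4 * m * c' := by
      have : 4 * m * (c' + 1) = 4 * m * c' + 4 * m := by ring
      omega
    rw [h5, Nat.add_mul_mod_self_left, Nat.mod_eq_of_lt (by omega)]
  rw [h3, jacobi_neg hm]

/-- The primes different from `p`. -/
abbrev PrimesNe (p : ℕ) : Type := {ℓ : ℕ // ℓ.Prime ∧ ℓ ≠ p}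

instance (p : ℕ) (ℓ : PrimesNe p) : Fact (ℓ : ℕ).Prime := ⟨ℓ.2.1⟩

/-- **A rational number which is not zero and is a square in `ℚ_ℓ` for all primes `ℓ ≠ p` is
positive.** -/
theorem pos_of_squares (p : ℕ) {a : ℚ} (ha : a ≠ 0)
    (h : ∀ ℓ : PrimesNe p, IsSquare ((a : ℚ) : ℚ_[ℓ])) : 0 < a := by
  by_contra hcon
  push Not at hcon
  have ha0 : a < 0 := lt_of_le_of_ne hcon ha
  have hnum : a.num < 0 := Rat.num_neg.2 ha0
  set m : ℕ := (a.num * a.den).natAbs with hm
  have hden : (0 : ℤ) < a.den := by exact_mod_cast a.den_pos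
  have hneg : a.num * a.den < 0 := mul_neg_of_neg_of_pos hnum hden
  have hm0 : 0 < m := Int.natAbs_pos.2 hneg.ne
  have hmz : (-(m : ℤ)) = a.num * a.den := by
    rw [hm]
    have := Int.natAbs_of_nonneg (a := -(a.num * a.den)) (by linarith)
    rw [Int.natAbs_neg] at this
    linarith
  obtain ⟨ℓ, hB, hp, hj⟩ := exists_prime hm0 (max p m)
  have hpl : p < ℓ := lt_of_le_of_lt (le_max_left _ _) hB
  have hml : m < ℓ := lt_of_le_of_lt (le_max_right _ _) hB
  have : Fact ℓ.Prime := ⟨hp⟩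
  obtain ⟨x, hx⟩ : IsSquare ((a : ℚ) : ℚ_[ℓ]) := h ⟨ℓ, hp, by omega⟩
  -- the integer is a square
  set y : ℚ_[ℓ] := x * a.den with hy
  have hy2 : y * y = ((-(m : ℤ) : ℤ) : ℚ_[ℓ]) := by
    rw [hmz, hy]
    have e1 : ((a : ℚ) : ℚ_[ℓ]) = (a.num : ℚ_[ℓ]) / (a.den : ℚ_[ℓ]) := by
      conv_lhs => rw [← Rat.num_div_den a]
      push_cast
      rfl
    have hd : (a.den : ℚ_[ℓ]) ≠ 0 := by exact_mod_cast a.den_nz
    have e2 : x * x = (a.num : ℚ_[ℓ]) / (a.den : ℚ_[ℓ]) := by rw [← e1]; exact hx.symm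
    calc x * a.den * (x * a.den) = (x * x) * (a.den * a.den) := by ring
      _ = ((a.num * a.den : ℤ) : ℚ_[ℓ]) := by
        rw [e2]
        push_cast
        field_simp
  have hnorm : ‖y‖ ≤ 1 := by
    have h1 : ‖y * y‖ ≤ 1 := by rw [hy2]; exact Padic.norm_int_le_one _
    rw [norm_mul] at h1
    by_contra hc
    push Not at hc
    nlinarith [norm_nonneg y]
  set z : ℤ_[ℓ] := ⟨y, hnorm⟩ with hz
  have hz2 : z * z = ((-(m : ℤ) : ℤ) : ℤ_[ℓ]) := by
    apply Subtype.ext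
    show y * y = _
    rw [hy2]
    push_cast
    rfl
  have h3 := congrArg (PadicInt.toZMod (p := ℓ)) hz2
  rw [map_mul, map_intCast] at h3
  have hsq : IsSquare (((-(m : ℤ) : ℤ)) : ZMod ℓ) := ⟨_, h3.symm⟩
  have hleg : legendreSym ℓ (-(m : ℤ)) = -1 := by
    rw [← jacobiSym.legendreSym.to_jacobiSym] at hj
    exact hj
  exact (legendreSym.eq_neg_one_iff ℓ).1 hleg hsq

/-- A monic rational polynomial without real roots takes positive values. -/
theorem pos_of_no_root {R : ℚ[X]} (hR : R.Monic) (h : ∀ x : ℝ, aeval x R ≠ 0) (x : ℚ) :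
    0 < R.eval x := by
  set P : ℝ[X] := R.map (algebraMap ℚ ℝ) with hP
  have hPm : P.Monic := hR.map _
  have hPe : ∀ y : ℝ, P.eval y = aeval y R := fun y => by rw [hP, eval_map_algebraMap]
  have hcast : P.eval (x : ℝ) = ((R.eval x : ℚ) : ℝ) := by
    rw [hP, eval_map_algebraMap]
    have := aeval_algebraMap_apply_eq_algebraMap_eval (A := ℝ) x R
    simpa using this
  by_contra hcon
  push Not at hcon
  have hx : P.eval (x : ℝ) ≤ 0 := by rw [hcast]; exact_mod_cast hcon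
  have hx' : P.eval (x : ℝ) < 0 := lt_of_le_of_ne hx (by rw [hPe]; exact h _)
  -- positive far away
  have hdeg : 0 < P.degree := by
    by_contra hd
    push Not at hd
    have h1 : P = 1 := hPm.degree_le_zero_iff_eq_one.1 hd
    rw [h1, eval_one] at hx'
    linarith
  have ht := P.tendsto_atTop_of_leadingCoeff_nonneg hdeg (by rw [hPm.leadingCoeff]; norm_num)
  obtain ⟨y, hy1, hy2⟩ := ((ht.eventually_gt_atTop 0).and (Filter.eventually_gt_atTop (x : ℝ))).exists
  obtain ⟨c, -, hc⟩ := intermediate_value_Icc hy2.le P.continuous.continuousOn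
    (show (0 : ℝ) ∈ Set.Icc (P.eval (x : ℝ)) (P.eval y) from ⟨hx'.le, hy1.le⟩)
  exact h c (by rw [← hPe]; exact hc)

end Pool.Agent.X305.PI
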