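import Pool.Agent.X305.HA.Defs
import Pool.Agent.X305.PI.Circ
import Pool.Agent.X305.PI.Sq

/-!
# The parity of the index of the form of the standard conjecture of Hodge type. Definitions
-/

set_option autoImplicit false

open CategoryTheory AlgebraicGeometry Polynomial

universe u v

namespace Pool.Agent.X305.PI

open Pool.Agent.H914 VarClass Obj WeilCohomology Pool.Agent.X305.HA

section LinAlg

variable {K : Type*} [Field K] {V : Type*} [AddCommGroup V] [Module K V] [Module.Finite K V]

/-- The operator `F` maps the subspace `U` to itself, and `R` is the characteristic polynomial of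
`a⁻¹ F` on `U`. -/
def ScaledCharpoly (F : Module.End K V) (U : Submodule K V) (a : K) (R : K[X]) : Prop :=
  ∃ G : Module.End K U, (∀ x, a • (G x : V) = F x) ∧ G.charpoly = R

/-- The map `c` identifies the scalar extension to `K` of the rational vector space `B` with the
subspace `U`. -/
def IsExtension {B : Type} [AddCommGroup B] [Module ℚ B] (c : B →+ V) (U : Submodule K V) : Prop :=
  ∃ (m : ℕ) (b : Module.Basis (Fin m) ℚ B), LinearIndependent K (fun i => c (b i)) ∧
    Submodule.span K (Set.range fun i => c (b i)) = U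

variable {A : Type*} [Ring A] [Algebra K A]

/-- The number `(-1) ^ n tr (x ξ ^ g y)`. -/
def signedTrace (tr : A →ₗ[K] K) (n : ℕ) (ξ : A) (g : ℕ) (x y : A) : K :=
  (-1) ^ n * tr (x * (ξ ^ g * y))

/-- The elements of `U` which are annihilated by `ξ ^ m`. -/
def killedBy (U : Submodule K A) (ξ : A) (m : ℕ) : Submodule K A :=
  U ⊓ LinearMap.ker (LinearMap.mulLeft K (ξ ^ m))

/-- The homomorphism `F` multiplies `x` by `a`. -/
def Scales (F : A →ₐ[K] A) (a : K) (x : A) : Prop := F x = a • x

/-- The homomorphism `F` multiplies `tr` by `a`. -/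
def TraceScales (F : A →ₐ[K] A) (tr : A →ₗ[K] K) (a : K) : Prop := ∀ x, tr (F x) = a * tr x

end LinAlg

variable {k : Type u} [Field k] {𝒱 : VarClass k}

/-- The pairing `(-1) ^ n deg (z · w · D ^ g)` of the conjecture, for cycles `z`, `w` of
codimension `n` on `X` and `dim X = 2 n + g`. -/
noncomputable def pairing (ops : CycleOps 𝒱) (X : 𝒱.Obj) (D : X.Cycles) (n g : ℕ)
    (z w : X.Cycles) : ℚ :=
  (-1) ^ n * X.V.degCycle (ops.mul z (divPow ops D g w))

/-- The cycles `z i` of codimension `n` are linearly independent modulo numerical equivalence. -/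
def NumIndependent (ops : CycleOps 𝒱) (X : 𝒱.Obj) (n : ℕ) {m : ℕ} (z : Fin m → X.Cycles) : Prop :=
  ∀ a : Fin m → ℚ, NumZero ops X n (∑ i, a i • z i) → a = 0

variable {ops : CycleOps 𝒱}

/-- The primitive cohomology of `X` in degree `2 n`, where `dim X = 2 n + g`. -/
noncomputable def prim (W : WeilCohomology.{u, v} ops) (X : 𝒱.Obj) (D : X.Cycles) (n g : ℕ) :
    Submodule W.K (W.H X) :=
  killedBy (W.gr X (2 * n)) (W.cl X D) (g + 1)

/-- The endomorphism `f` of `X` acts on the cohomology like the Frobenius endomorphism relative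
to the field with `q` elements, if `X`, `D` and all classes of cycles of codimension `n` are
defined over this field; `R` is the characteristic polynomial of `q ^ (-n) f^*` on the primitive
cohomology in degree `2 n`. -/
structure IsFrobenius (W : WeilCohomology.{u, v} ops) (X : 𝒱.Obj) (D : X.Cycles) (f : X ⟶ X)
    (q n g : ℕ) (R : ℚ[X]) : Prop where
  map_div : Scales (W.map f) q (W.cl X D)
  tr_map : TraceScales (W.map f) (W.tr X) (q ^ X.dim : ℕ)
  map_cycle : ∀ z, X.IsCyc n z → Scales (W.map f) (q ^ n : ℕ) (W.cl X z)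
  charpoly : ScaledCharpoly (W.map f).toLinearMap (prim W X D n g) (q ^ n : ℕ)
    (R.map (Rat.castHom W.K))

/-- The map `c` identifies the primitive cohomology of `X` in degree `2 n` with the scalar
extension of the polarized Hodge structure `H` (of the primitive cohomology of a lift of `X` and
`D` to characteristic zero, twisted to weight zero). -/
structure IsComparison {B : Type} [AddCommGroup B] [Module ℚ B] (W : WeilCohomology.{u, v} ops)
    (X : 𝒱.Obj) (D : X.Cycles) (n g : ℕ) (H : PolarizedHodge B) (c : B →+ W.H X) : Prop where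
  basis : IsExtension c (prim W X D n g)
  form : ∀ x y, signedTrace (W.tr X) n (W.cl X D) g (c x) (c y) = (H.form x y : W.K)

/-- The reduction `X`, `D` over the algebraic closure of a finite field of characteristic `p` of a
variety and a divisor in characteristic zero, in codimension `n` and with `dim X = 2 n + g`: `W ℓ` is
the `ℓ`-adic cohomology, `ℓ ≠ p`; the conjecture `A` of Lefschetz type holds for `X` and `D`; `f` is
the Frobenius endomorphism relative to a finite field with `q` elements over which `X`, `D` and all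
classes of cycles of codimension `n` are defined; the roots of the characteristic polynomial `R`
have absolute value `1`, and `-1` is not a root; the maps `c ℓ` identify the primitive cohomology
with the Hodge structure `H` of the lift. Nothing is said about lifting cycles. -/
structure IsReduction {B : Type} [AddCommGroup B] [Module ℚ B] {p : ℕ}
    (W : PrimesNe p → WeilCohomology.{u, v} ops) (X : 𝒱.Obj) (D : X.Cycles) (n g : ℕ) (f : X ⟶ X)
    (q : ℕ) (R : ℚ[X]) (H : PolarizedHodge B) (c : ∀ ℓ, B →+ (W ℓ).H X) : Prop where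
  coeff : ∀ ℓ, Nonempty ((W ℓ).K →+* ℚ_[ℓ])
  div : X.IsCyc 1 D
  dim : 2 * n + g = X.dim
  lefschetz : ∀ ℓ, LefschetzA (W ℓ) X D
  pos : 0 < q
  frobenius : ∀ ℓ, IsFrobenius (W ℓ) X D f q n g R
  weight : ∀ z : ℂ, aeval z R = 0 → ‖z‖ = 1
  neg_one : R.eval (-1) ≠ 0
  comparison : ∀ ℓ, IsComparison (W ℓ) X D n g H (c ℓ)

/-- The cycles `y i` of codimension `n` lift: their classes come from the linearly independent
Hodge classes `b i`. -/
structure IsLifted {B : Type} [AddCommGroup B] [Module ℚ B] {p : ℕ}
    (W : PrimesNe p → WeilCohomology.{u, v} ops) (X : 𝒱.Obj) (n : ℕ) (H : PolarizedHodge B)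
    (c : ∀ ℓ, B →+ (W ℓ).H X) {r : ℕ} (y : Fin r → X.Cycles) (b : Fin r → B) : Prop where
  cyc : ∀ i, X.IsCyc n (y i)
  indep : LinearIndependent ℚ b
  hodge : ∀ i, H.IsHodge (b i)
  cl : ∀ ℓ i, c ℓ (b i) = (W ℓ).cl X (y i)

/-- The matrix of the numbers `(-1) ^ n deg (w i · w j · D ^ g)`. -/
noncomputable def pairingMatrix (ops : CycleOps 𝒱) (X : 𝒱.Obj) (D : X.Cycles) (n g : ℕ) {m : ℕ}
    (w : Fin m → X.Cycles) : Matrix (Fin m) (Fin m) ℚ :=
  Matrix.of fun i j => pairing ops X D n g (w i) (w j)

end Pool.Agent.X305.PI
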