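import Pool.Agent.X305.PI.Glob

/-!
# The parity theorem: families with the lifted classes
-/

set_option autoImplicit false

open CategoryTheory AlgebraicGeometry Polynomial TensorProduct

universe u v

namespace Pool.Agent.X305.PI

open Pool.Agent.H914 VarClass Obj WeilCohomology Pool.Agent.X305.HA Pool.Agent.TH720.LB

variable {k : Type u} [Field k] {𝒱 : VarClass k} {ops : CycleOps 𝒱}

lemma exists_primeNe (p : ℕ) : Nonempty (PrimesNe p) := by
  by_cases hp : p = 2
  · exact ⟨⟨3, Nat.prime_three, by omega⟩⟩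
  · exact ⟨⟨2, Nat.prime_two, fun h => hp h.symm⟩⟩

section

variable {p : ℕ} {W : PrimesNe p → WeilCohomology.{u, v} ops} (e : ∀ ℓ, (W ℓ).K →+* ℚ_[ℓ])
  {X : 𝒱.Obj} {D : X.Cycles} (hD : X.IsCyc 1 D) {n g : ℕ} (hd : 2 * n + g = X.dim)
  (hA : ∀ ℓ, LefschetzA (W ℓ) X D) {f : X ⟶ X} {q : ℕ} (hq : 0 < q) {R : ℚ[X]}
  (hR1 : ∀ z : ℂ, aeval z R = 0 → ‖z‖ = 1) (hR2 : R.eval (-1) ≠ 0)
  (hF : ∀ ℓ, IsFrobenius (W ℓ) X D f q n g R)
  {B : Type} [AddCommGroup B] [Module ℚ B] {H : PolarizedHodge B} {c : ∀ ℓ, B →+ (W ℓ).H X}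
  (hc : ∀ ℓ, IsComparison (W ℓ) X D n g H (c ℓ))
include e hD hd hA hq hR1 hR2 hF hc

/-- a family of independent primitive cycles -/
theorem family {s : ℕ} {z : Fin s → X.Cycles} (hz : ∀ i, NumPrimitive ops X D n g (z i))
    (hi : NumIndependent ops X n z) : s ≤ R.rootMultiplicity 1 ∧ (s = R.rootMultiplicity 1 →
      0 < (Matrix.of fun i j => pairing ops X D n g (z i) (z j)).det) := by
  obtain ⟨ℓ0⟩ := exists_primeNe p
  have hRm : R.Monic := by
    obtain ⟨F, -, hch⟩ := (hF ℓ0).charpoly
    have h1 : (R.map (Rat.castHom (W ℓ0).K)).Monic := by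
      rw [← hch]
      exact LinearMap.charpoly_monic F
    exact Polynomial.monic_of_injective (Rat.castHom (W ℓ0).K).injective h1
  obtain ⟨Q, hRQ, hQpos, hQ1, hQ2⟩ := split_poly hRm hR1 hR2
  obtain ⟨m0, b0, -⟩ := (hc ℓ0).basis
  have key := fun ℓ => family_one hD hd (hA ℓ) hq (hF ℓ) (hc ℓ) hRQ hQ1 hQ2 hz hi b0
  refine ⟨(key ℓ0).1, fun hs => ?_⟩
  have hdet0 := ((key ℓ0).2 hs).1
  have hb0 := det_form_pos H b0
  have hne : (LinearMap.BilinForm.toMatrix b0 H.form).det *
      (Matrix.of fun i j => pairing ops X D n g (z i) (z j)).det *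
        (Q.eval 1 * Q.eval (-1)) ≠ 0 :=
    mul_ne_zero (mul_ne_zero hb0.ne' hdet0) hQpos.ne'
  have hpos := pos_of_squares p hne (fun ℓ => by
    obtain ⟨x, hx⟩ := ((key ℓ).2 hs).2
    refine ⟨e ℓ x, ?_⟩
    rw [← map_mul, ← hx, map_ratCast])
  have h1 := pos_of_mul_pos_left hpos hQpos.le
  exact pos_of_mul_pos_right h1 hb0.le

variable {r : ℕ} {y : Fin r → X.Cycles} {b : Fin r → B} (hy : ∀ i, X.IsCyc n (y i))
  (hb : LinearIndependent ℚ b) (hH : ∀ i, H.IsHodge (b i))
  (hyb : ∀ ℓ i, c ℓ (b i) = (W ℓ).cl X (y i))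
include hy hb hH hyb

omit e hA hq hR1 hR2 hF in
lemma pairing_lift (i j : Fin r) : pairing ops X D n g (y i) (y j) = H.form (b i) (b j) := by
  obtain ⟨ℓ0⟩ := exists_primeNe p
  have h1 : ((pairing ops X D n g (y i) (y j) : ℚ) : (W ℓ0).K) =
      ((H.form (b i) (b j) : ℚ) : (W ℓ0).K) := by
    rw [pairing_eq hD hd (W ℓ0) (hy i) (hy j), ← hyb, ← hyb]
    exact (hc ℓ0).form _ _
  exact_mod_cast h1

omit e hA hq hR1 hR2 hF hH hb hd in
lemma prim_lift (i : Fin r) : NumPrimitive ops X D n g (y i) := by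
  obtain ⟨ℓ0⟩ := exists_primeNe p
  rw [prim_iff (W := W ℓ0) hD (hy i), ← hyb ℓ0, (mem_prim.1 (comp_mem (hc ℓ0) (b i))).2]
  intro q b _
  rw [zero_mul, map_zero]

/-- families orthogonal to the lifted classes -/
theorem family_lift {m : ℕ} {w : Fin m → X.Cycles} (hw : ∀ i, NumPrimitive ops X D n g (w i))
    (hwy : ∀ i j, pairing ops X D n g (w i) (y j) = 0) (hi : NumIndependent ops X n w) :
    r + m ≤ R.rootMultiplicity 1 ∧ (r + m = R.rootMultiplicity 1 →
      0 < (Matrix.of fun i j => pairing ops X D n g (w i) (w j)).det) := by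
  obtain ⟨ℓ0⟩ := exists_primeNe p
  have hyp := prim_lift hD hc hy hyb
  have hpl := pairing_lift hD hd hc hy hb hH hyb
  set z : Fin (r + m) → X.Cycles := Fin.append y w with hz
  have hzp : ∀ i, NumPrimitive ops X D n g (z i) := by
    intro i
    refine Fin.addCases (fun i => ?_) (fun i => ?_) i
    · rw [hz, Fin.append_left]; exact hyp i
    · rw [hz, Fin.append_right]; exact hw i
  have hzi : NumIndependent ops X n z := by
    intro a ha
    have hsum : ∑ i, a i • z i = (∑ i, a (Fin.castAdd m i) • y i) +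
        ∑ i, a (Fin.natAdd r i) • w i := by
      rw [Fin.sum_univ_add]
      simp only [hz, Fin.append_left, Fin.append_right]
    have hY := cyc_sum (X := X) hy (fun i => a (Fin.castAdd m i))
    have hW := cyc_sum (X := X) (fun i => (hw i).1) (fun i => a (Fin.natAdd r i))
    rw [hsum] at ha
    have h1 : (fun i => a (Fin.castAdd m i)) = 0 := by
      by_contra hne
      have h2 := lifted_pos_rat H hb hH _ hne
      have h3 : ∀ j, ∑ i, a (Fin.castAdd m i) * H.form (b i) (b j) = 0 := by
        intro j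
        have h4 := pairing_zero hD hd ha (hy j)
        rw [pairing_add hD hd (W ℓ0) hY hW (hy j), pairing_sum hD hd (W ℓ0) hy _ (hy j),
          pairing_sum hD hd (W ℓ0) (fun i => (hw i).1) _ (hy j)] at h4
        rw [Finset.sum_eq_zero (s := Finset.univ)
          (f := fun i => a (Fin.natAdd r i) * pairing ops X D n g (w i) (y j))
          (fun i _ => by rw [hwy i j, mul_zero]), add_zero] at h4
        rw [← h4]
        exact Finset.sum_congr rfl fun i _ => by rw [hpl]
      have h5 : (fun i => a (Fin.castAdd m i)) ⬝ᵥ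
          (Matrix.of fun i j => H.form (b i) (b j)).mulVec (fun i => a (Fin.castAdd m i)) = 0 := by
        rw [dotProduct]
        refine Finset.sum_eq_zero fun i _ => ?_
        have h6 : (Matrix.of fun i j => H.form (b i) (b j)).mulVec
            (fun i => a (Fin.castAdd m i)) i = 0 := by
          rw [Matrix.mulVec, dotProduct, ← h3 i]
          refine Finset.sum_congr rfl fun j _ => ?_
          rw [Matrix.of_apply, H.symm, mul_comm]
        rw [h6, mul_zero]
      rw [h5] at h2
      exact lt_irrefl _ h2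
    have h7 : (fun i => a (Fin.natAdd r i)) = 0 := by
      apply hi
      have h8 : ∑ i, a (Fin.castAdd m i) • y i = 0 :=
        Finset.sum_eq_zero fun i _ => by
          have := congrFun h1 i
          simp only [Pi.zero_apply] at this
          rw [this, zero_smul]
      rw [h8, zero_add] at ha
      exact ha
    funext i
    refine Fin.addCases (fun i => ?_) (fun i => ?_) i
    · exact congrFun h1 i
    · exact congrFun h7 i
  obtain ⟨h1, h2⟩ := family e hD hd hA hq hR1 hR2 hF hc hzp hzi
  refine ⟨h1, fun h => ?_⟩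
  have h3 := h2 h
  have hblock : (Matrix.of fun i j => pairing ops X D n g (z i) (z j)) =
      (Matrix.fromBlocks (Matrix.of fun i j => H.form (b i) (b j)) 0 0
        (Matrix.of fun i j => pairing ops X D n g (w i) (w j))).submatrix
          finSumFinEquiv.symm finSumFinEquiv.symm := by
    ext i j
    obtain ⟨i, rfl⟩ := finSumFinEquiv.surjective i
    obtain ⟨j, rfl⟩ := finSumFinEquiv.surjective j
    rw [Matrix.submatrix_apply, Equiv.symm_apply_apply, Equiv.symm_apply_apply]
    rcases i with i | i <;> rcases j with j | j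
    · rw [Matrix.fromBlocks_apply₁₁]
      simp only [Matrix.of_apply, finSumFinEquiv_apply_left, hz, Fin.append_left]
      exact hpl i j
    · rw [Matrix.fromBlocks_apply₁₂]
      simp only [Matrix.of_apply, finSumFinEquiv_apply_left, finSumFinEquiv_apply_right, hz,
        Fin.append_left, Fin.append_right, Matrix.zero_apply]
      rw [pairing_symm hD hd (W ℓ0) (hy i) (hw j).1]
      exact hwy j i
    · rw [Matrix.fromBlocks_apply₂₁]
      simp only [Matrix.of_apply, finSumFinEquiv_apply_left, finSumFinEquiv_apply_right, hz,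
        Fin.append_left, Fin.append_right, Matrix.zero_apply]
      exact hwy i j
    · rw [Matrix.fromBlocks_apply₂₂]
      simp only [Matrix.of_apply, finSumFinEquiv_apply_right, hz, Fin.append_right]
  rw [hblock, Matrix.det_submatrix_equiv_self, Matrix.det_fromBlocks_zero₂₁] at h3
  exact pos_of_mul_pos_right h3 (lifted_det_pos H hb hH).le

/-- **at most one class which does not lift** -/
theorem positive_of_le (ht : R.rootMultiplicity 1 ≤ r + 1) : PositiveAt ops X D n g := by
  intro w0 hw0 hnz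
  by_contra hcon
  push Not at hcon
  obtain ⟨ℓ0⟩ := exists_primeNe p
  have hyp := prim_lift hD hc hy hyb
  have hpl := pairing_lift hD hd hc hy hb hH hyb
  set G : Matrix (Fin r) (Fin r) ℚ := Matrix.of fun i j => H.form (b i) (b j) with hG
  have hGd : 0 < G.det := lifted_det_pos H hb hH
  have hGu : IsUnit G.det := hGd.ne'.isUnit
  set u : Fin r → ℚ := fun j => pairing ops X D n g w0 (y j) with hu
  set a : Fin r → ℚ := G⁻¹.mulVec u with ha
  have hGa : G.mulVec a = u := by
    rw [ha, Matrix.mulVec_mulVec, Matrix.mul_nonsing_inv G hGu, Matrix.one_mulVec]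
  have hY := cyc_sum (X := X) hy (fun i => -a i)
  set w : X.Cycles := w0 + ∑ i, (-a i) • y i with hw
  have hwc : X.IsCyc n w := hw0.1.add hY
  have hwp : NumPrimitive ops X D n g w := by
    rw [prim_iff (W := W ℓ0) hD hwc, hw, map_add, cl_comb, mul_add, Finset.mul_sum]
    refine NZ.add ((prim_iff (W := W ℓ0) hD hw0.1).1 hw0) (NZ.sum _ fun i _ => ?_)
    rw [mul_smul_comm]
    exact NZ.smul _ ((prim_iff (W := W ℓ0) hD (hy i)).1 (hyp i))
  have hsumG : ∀ j, ∑ i, (-a i) * pairing ops X D n g (y i) (y j) = - u j := by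
    intro j
    rw [← hGa, Matrix.mulVec, dotProduct, ← Finset.sum_neg_distrib]
    refine Finset.sum_congr rfl fun i _ => ?_
    rw [hpl, hG, Matrix.of_apply, H.symm]
    ring
  have hwy : ∀ j, pairing ops X D n g w (y j) = 0 := by
    intro j
    rw [hw, pairing_add hD hd (W ℓ0) hw0.1 hY (hy j), pairing_sum hD hd (W ℓ0) hy _ (hy j),
      hsumG]
    exact add_neg_cancel _
  have hww0 : pairing ops X D n g w w0 = hodgeNorm ops X D n g w0 - a ⬝ᵥ G.mulVec a := by
    rw [hw, pairing_add hD hd (W ℓ0) hw0.1 hY hw0.1, pairing_sum hD hd (W ℓ0) hy _ hw0.1, hGa,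
      dotProduct, sub_eq_add_neg, ← Finset.sum_neg_distrib]
    congr 1
    refine Finset.sum_congr rfl fun i _ => ?_
    rw [pairing_symm hD hd (W ℓ0) (hy i) hw0.1]
    ring
  have hww : pairing ops X D n g w w = pairing ops X D n g w w0 := by
    have h1 : pairing ops X D n g w w = pairing ops X D n g w w0 +
        ∑ i, (-a i) * pairing ops X D n g (y i) w := by
      rw [pairing_symm hD hd (W ℓ0) hwc hw0.1]
      have : pairing ops X D n g w w =
          pairing ops X D n g (w0 + ∑ i, (-a i) • y i) w := by rw [← hw]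
      rw [this, pairing_add hD hd (W ℓ0) hw0.1 hY hwc, pairing_sum hD hd (W ℓ0) hy _ hwc]
    rw [h1, Finset.sum_eq_zero (s := Finset.univ)
      (f := fun i => (-a i) * pairing ops X D n g (y i) w)
      (fun i _ => by rw [pairing_symm hD hd (W ℓ0) (hy i) hwc, hwy i, mul_zero]), add_zero]
  have haG : 0 ≤ a ⬝ᵥ G.mulVec a := by
    by_cases h0 : a = 0
    · rw [h0, zero_dotProduct]
    · exact (lifted_pos_rat H hb hH a h0).le
  have hle : pairing ops X D n g w w ≤ 0 := by
    rw [hww, hww0]
    linarith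
  have hwnz : ¬ NumZero ops X n w := by
    intro h
    have h1 := pairing_zero hD hd h hw0.1
    rw [hww0] at h1
    have h2 : a = 0 := by
      by_contra h0
      have := lifted_pos_rat H hb hH a h0
      linarith
    apply hnz
    have h3 : w = w0 := by
      rw [hw, Finset.sum_eq_zero (fun i _ => by rw [h2, Pi.zero_apply, neg_zero, zero_smul]),
        add_zero]
    rwa [h3] at h
  have hind : NumIndependent ops X n (fun _ : Fin 1 => w) := by
    intro a' ha'
    rw [Fin.sum_univ_one] at ha'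
    funext i
    rw [Fin.eq_zero i, Pi.zero_apply]
    by_contra h0
    apply hwnz
    rw [numZero_iff' (W := W ℓ0) (hwc.smul _), W ℓ0 |>.cl_smul] at ha'
    rw [numZero_iff' (W := W ℓ0) hwc]
    have h1 := NZ.smul ((a' 0 : (W ℓ0).K)⁻¹) ha'
    rwa [smul_smul, inv_mul_cancel₀ (by exact_mod_cast h0), one_smul] at h1
  obtain ⟨h1, h2⟩ := family_lift e hD hd hA hq hR1 hR2 hF hc hy hb hH hyb (w := fun _ : Fin 1 => w)
    (fun _ => hwp) (fun _ j => hwy j) hind
  have h3 := h2 (le_antisymm h1 ht)
  rw [Matrix.det_fin_one, Matrix.of_apply] at h3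
  linarith

end

end Pool.Agent.X305.PI
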