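import Pool.Agent.X305.HA.Main
import Pool.Agent.X305.PI.Defs
import Pool.Agent.X305.PI.Split

/-!
# The form on the primitive cohomology
-/

set_option autoImplicit false

open CategoryTheory AlgebraicGeometry Polynomial

universe u v

namespace Pool.Agent.X305.PI

open Pool.Agent.H914 VarClass Obj WeilCohomology Pool.Agent.X305.HA Pool.Agent.TH720.LB

variable {k : Type u} [Field k] {𝒱 : VarClass k} {ops : CycleOps 𝒱}
  {W : WeilCohomology.{u, v} ops} {X : 𝒱.Obj} {D : X.Cycles} {n g : ℕ}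

lemma mem_prim {x : W.H X} : x ∈ prim W X D n g ↔
    x ∈ W.gr X (2 * n) ∧ W.cl X D ^ (g + 1) * x = 0 := by
  rw [prim, killedBy, Submodule.mem_inf, LinearMap.mem_ker, LinearMap.mulLeft_apply]

lemma IsFrobenius.map_div' {f : X ⟶ X} {q : ℕ} {R : ℚ[X]} (hf : IsFrobenius W X D f q n g R) :
    W.map f (W.cl X D) = (q : W.K) • W.cl X D := hf.map_div

lemma IsFrobenius.tr_map' {f : X ⟶ X} {q : ℕ} {R : ℚ[X]} (hf : IsFrobenius W X D f q n g R)
    (a : W.H X) : W.tr X (W.map f a) = (q : W.K) ^ X.dim * W.tr X a := by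
  have := hf.tr_map a
  rwa [Nat.cast_pow] at this

lemma IsFrobenius.map_cycle' {f : X ⟶ X} {q : ℕ} {R : ℚ[X]} (hf : IsFrobenius W X D f q n g R)
    (z : X.Cycles) (hz : X.IsCyc n z) : W.map f (W.cl X z) = (q : W.K) ^ n • W.cl X z := by
  have := hf.map_cycle z hz
  rwa [Scales, Nat.cast_pow] at this

/-- the form on the primitive cohomology -/
noncomputable def frm (W : WeilCohomology.{u, v} ops) (X : 𝒱.Obj) (D : X.Cycles) (n g : ℕ) :
    LinearMap.BilinForm W.K (prim W X D n g) :=
  LinearMap.mk₂ W.K (fun x y => (-1) ^ n * W.tr X ((x : W.H X) * (W.cl X D ^ g * (y : W.H X))))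
    (fun x x' y => by rw [Submodule.coe_add, add_mul, map_add, mul_add])
    (fun a x y => by
      rw [Submodule.coe_smul, smul_mul_assoc, map_smul, smul_eq_mul, smul_eq_mul]; ring)
    (fun x y y' => by rw [Submodule.coe_add, mul_add, mul_add, map_add, mul_add])
    (fun a x y => by
      rw [Submodule.coe_smul, mul_smul_comm, mul_smul_comm, map_smul, smul_eq_mul, smul_eq_mul]
      ring)

lemma frm_apply (x y : prim W X D n g) : frm W X D n g x y =
    (-1) ^ n * W.tr X ((x : W.H X) * (W.cl X D ^ g * (y : W.H X))) := rfl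

lemma frm_symm (x y : prim W X D n g) : frm W X D n g x y = frm W X D n g y x := by
  rw [frm_apply, frm_apply, comm_even (mem_prim.1 x.2).1, mul_assoc,
    comm_even (mem_prim.1 y.2).1 (W.cl X D ^ g * (x : W.H X)), mul_assoc,
    comm_even (mem_prim.1 x.2).1]

/-- the isometry -/
lemma frm_isom {f : X ⟶ X} {q : ℕ} (hq : 0 < q) (hd : 2 * n + g = X.dim) {R : ℚ[X]}
    (hf : IsFrobenius W X D f q n g R) {F : Module.End W.K (prim W X D n g)}
    (hF : ∀ x, (q : W.K) ^ n • (F x : W.H X) = W.map f x) (x y : prim W X D n g) :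
    frm W X D n g (F x) (F y) = frm W X D n g x y := by
  have hq0 : (q : W.K) ≠ 0 := by exact_mod_cast hq.ne'
  have h1 := hf.tr_map' ((x : W.H X) * (W.cl X D ^ g * (y : W.H X)))
  rw [map_mul (W.map f), map_mul (W.map f), map_pow (W.map f), hf.map_div', ← hF, ← hF, _root_.smul_pow,
    smul_mul_assoc, smul_mul_assoc, mul_smul_comm, mul_smul_comm, mul_smul_comm, map_smul,
    map_smul, map_smul, smul_eq_mul, smul_eq_mul, smul_eq_mul, ← hd] at h1
  rw [frm_apply, frm_apply]
  have h2 : (q : W.K) ^ (2 * n + g) ≠ 0 := pow_ne_zero _ hq0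
  apply mul_left_cancel₀ h2
  linear_combination (-1) ^ n * h1

section

variable (hD : X.IsCyc 1 D) (hd : 2 * n + g = X.dim)
include hD hd

/-- a numerically primitive cycle has a homologically primitive representative -/
lemma exists_prim (hA : LefschetzA W X D) {z : X.Cycles} (hz : NumPrimitive ops X D n g z) :
    ∃ c ∈ algClasses W X n, c ∈ prim W X D n g ∧ NZ W X (W.cl X z - c) := by
  have hz2 := (prim_iff (W := W) hD hz.1).1 hz
  rcases Nat.eq_zero_or_pos n with hn | hn
  · refine ⟨W.cl X z, ⟨z, hz.1, rfl⟩, mem_prim.2 ⟨W.cl_mem hz.1, ?_⟩, ?_⟩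
    · have h1 := W.cl_mem (divPow_mem (ops := ops) hD (g + 1) hz.1)
      rw [W.gr_eq_bot X _ (by omega), Submodule.mem_bot, cl_divPow'] at h1
      exact h1
    · rw [sub_self]
      intro q b _
      rw [zero_mul, map_zero]
  · have hcyc := divPow_mem (ops := ops) hD (g + 1) hz.1
    rw [show n + (g + 1) = X.dim - (n - 1) by omega] at hcyc
    obtain ⟨z1, hz1, h1⟩ := hA (n - 1) (by omega) _ hcyc
    rw [cl_divPow', cl_divPow', show X.dim - 2 * (n - 1) = g + 1 + 1 by omega] at h1
    -- `z1` is numerically trivial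
    have hNZ1 : NZ W X (W.cl X z1) := by
      rw [← numZero_iff' (ops := ops) hz1]
      intro q w hq hw
      obtain ⟨w', hw', h2⟩ := hA (n - 1) (by omega) w (by
        rw [show X.dim - (n - 1) = q by omega]; exact hw)
      rw [cl_divPow', show X.dim - 2 * (n - 1) = g + 1 + 1 by omega] at h2
      have h3 : W.tr X (W.cl X z1 * W.cl X w) = 0 := by
        rw [← h2, ← mul_assoc, ← comm_even (p := g + 1 + 1) (pow_mem' (cl_div hD) _), h1]
        exact hz2 (n - 1) _ ⟨w', hw', rfl⟩
      rw [← W.cl_mul, W.tr_cl (by rw [← hq]; exact ops.mul_mem hz1 hw)] at h3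
      exact_mod_cast h3
    refine ⟨W.cl X z - W.cl X D * W.cl X z1, ?_, mem_prim.2 ⟨?_, ?_⟩, ?_⟩
    · refine ⟨z + (-1 : ℚ) • ops.mul D z1, hz.1.add ((?_ : X.IsCyc n _).smul (-1)), ?_⟩
      · have := ops.mul_mem hD hz1
        rwa [show 1 + (n - 1) = n by omega] at this
      · rw [map_add, W.cl_smul, W.cl_mul]
        push_cast
        rw [neg_smul, one_smul, sub_eq_add_neg]
    · refine Submodule.sub_mem _ (W.cl_mem hz.1) ?_
      have := W.mul_mem (W.cl_mem hD) (W.cl_mem hz1)
      rwa [show 2 * 1 + 2 * (n - 1) = 2 * n by omega] at this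
    · rw [mul_sub, ← mul_assoc, ← pow_succ, h1, sub_self]
    · rw [sub_sub_cancel]
      intro q b hb
      rw [comm_even (p := 1) (W.cl_mem hD), mul_assoc]
      exact hNZ1 _ _ (alg_mul ⟨D, hD, rfl⟩ hb)

/-- the pairing of cycles in terms of the form on the primitive cohomology -/
lemma frm_cyc {z w : X.Cycles} (hz : X.IsCyc n z) (hw : X.IsCyc n w) {c d : prim W X D n g}
    (hc : (c : W.H X) ∈ algClasses W X n) (hcz : NZ W X (W.cl X z - c))
    (hdw : NZ W X (W.cl X w - d)) :
    frm W X D n g c d = (pairing ops X D n g z w : W.K) := by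
  have h1 : W.tr X (W.cl X z * (W.cl X D ^ g * W.cl X w)) =
      W.tr X ((c : W.H X) * (W.cl X D ^ g * (d : W.H X))) := by
    have h2 := hcz _ _ (alg_mul (alg_pow ⟨D, hD, rfl⟩ g) ⟨w, hw, rfl⟩)
    rw [sub_mul, map_sub, sub_eq_zero] at h2
    rw [h2]
    have h3 := hdw _ _ (alg_mul hc (alg_pow ⟨D, hD, rfl⟩ g))
    rw [sub_mul, map_sub, sub_eq_zero] at h3
    have e : ∀ y : W.H X, y ∈ W.gr X (2 * n) → (c : W.H X) * (W.cl X D ^ g * y) =
        y * ((c : W.H X) * W.cl X D ^ g) := by
      intro y hy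
      rw [← mul_assoc, ← comm_even hy]
    rw [e _ (W.cl_mem hw), e _ (mem_prim.1 d.2).1]
    exact h3
  have h4 : W.tr X (W.cl X z * (W.cl X D ^ g * W.cl X w)) =
      (X.V.degCycle (ops.mul z (divPow ops D g w)) : W.K) := by
    rw [← cl_divPow', ← W.cl_mul, W.tr_cl]
    rw [← hd, show 2 * n + g = n + (n + g) by ring]
    exact ops.mul_mem hz (divPow_mem hD g hw)
  rw [frm_apply, ← h1, h4, pairing]
  push_cast
  rfl

/-- independence modulo numerical equivalence and linear independence -/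
lemma indep {m : ℕ} {z : Fin m → X.Cycles} (hz : ∀ i, X.IsCyc n (z i))
    (hi : NumIndependent ops X n z) {c : Fin m → prim W X D n g}
    (hcz : ∀ i, NZ W X (W.cl X (z i) - c i)) : LinearIndependent W.K c := by
  rw [Fintype.linearIndependent_iff]
  intro a ha
  by_contra hcon
  push Not at hcon
  obtain ⟨i0, hi0⟩ := hcon
  obtain ⟨φ, hφ⟩ : ∃ φ : W.K →ₗ[ℚ] ℚ, φ (a i0) ≠ 0 := by
    by_contra h
    push Not at h
    exact hi0 ((Module.forall_dual_apply_eq_zero_iff ℚ (a i0)).1 h)
  have h0 := hi (fun i => φ (a i)) (by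
    intro q w hq hw
    have hcyc : X.IsCyc n (∑ i, φ (a i) • z i) := by
      have : ∀ s : Finset (Fin m), X.IsCyc n (∑ i ∈ s, φ (a i) • z i) := by
        intro s
        classical
        induction s using Finset.induction_on with
        | empty => rw [Finset.sum_empty]; exact SmVar.IsCyc.zero _ _
        | insert j s hj ih =>
          rw [Finset.sum_insert hj]
          exact ((hz j).smul _).add ih
      exact this Finset.univ
    have hdeg : ∀ i, W.tr X (W.cl X (z i) * W.cl X w) =
        ((X.V.degCycle (ops.mul (z i) w) : ℚ) : W.K) := fun i => by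
      rw [← W.cl_mul, W.tr_cl]
      rw [← hq]
      exact ops.mul_mem (hz i) hw
    have h1 : (∑ i, a i * ((X.V.degCycle (ops.mul (z i) w) : ℚ) : W.K)) = 0 := by
      have h2 : W.tr X (((∑ i, a i • c i : prim W X D n g) : W.H X) * W.cl X w) = 0 := by
        rw [ha, Submodule.coe_zero, zero_mul, map_zero]
      rw [Submodule.coe_sum, Finset.sum_mul, map_sum] at h2
      rw [← h2]
      refine Finset.sum_congr rfl fun i _ => ?_
      rw [Submodule.coe_smul, smul_mul_assoc, map_smul, smul_eq_mul, ← hdeg i]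
      have h3 := hcz i _ _ ⟨w, hw, rfl⟩
      rw [sub_mul, map_sub, sub_eq_zero] at h3
      rw [h3]
    have h4 : ∑ i, φ (a i) * X.V.degCycle (ops.mul (z i) w) = 0 := by
      have h5 := congrArg φ h1
      rw [map_sum, map_zero] at h5
      rw [← h5]
      refine Finset.sum_congr rfl fun i _ => ?_
      have h6 : a i * ((X.V.degCycle (ops.mul (z i) w) : ℚ) : W.K) =
          (X.V.degCycle (ops.mul (z i) w) : ℚ) • a i := by
        rw [Rat.smul_def, mul_comm]
      rw [h6, map_smul, smul_eq_mul, mul_comm]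
    have h7 : ((X.V.degCycle (ops.mul (∑ i, φ (a i) • z i) w) : ℚ) : W.K) = 0 := by
      rw [← W.tr_cl (by rw [← hq]; exact ops.mul_mem hcyc hw), W.cl_mul, map_sum, Finset.sum_mul,
        map_sum]
      have h8 : ((∑ i, φ (a i) * X.V.degCycle (ops.mul (z i) w) : ℚ) : W.K) = 0 := by
        rw [h4, Rat.cast_zero]
      rw [← h8]
      push_cast
      refine Finset.sum_congr rfl fun i _ => ?_
      rw [W.cl_smul, smul_mul_assoc, map_smul, smul_eq_mul, hdeg i]
    exact_mod_cast h7)
  exact hφ (congrFun h0 i0)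

end

end Pool.Agent.X305.PI
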