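import Pool.Agent.Helper929.Pfaffian

/-!
# The discriminant of a quadratic space with an isometry without the eigenvalues `1`, `-1`
-/

set_option autoImplicit false

namespace Pool.Agent.X305.PI

open Matrix

variable {K : Type*} [Field K] [CharZero K] {n : ℕ}

lemma det_isom_one {M A : Matrix (Fin n) (Fin n) K} (hA : Aᵀ * M * A = M) (hdet : M.det ≠ 0)
    (h1 : (A + 1).det ≠ 0) : A.det = 1 := by
  have e : Aᵀ * M * (A + 1) = (1 + Aᵀ) * M := by
    rw [Matrix.mul_add, hA, Matrix.mul_one, Matrix.add_mul, Matrix.one_mul]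
  have e2 := congrArg Matrix.det e
  rw [det_mul, det_mul, det_transpose, det_mul] at e2
  have e3 : (1 + Aᵀ).det = (A + 1).det := by
    rw [← det_transpose, transpose_add, transpose_transpose, transpose_one, add_comm]
  rw [e3] at e2
  have h2 : (A.det - 1) * (M.det * (A + 1).det) = 0 := by linear_combination e2
  rcases mul_eq_zero.1 h2 with h3 | h3
  · linear_combination h3
  · exact absurd h3 (mul_ne_zero hdet h1)

/-- **The discriminant of a quadratic space with an isometry `A` without the eigenvalue `-1` is
`det (A - 1) det (A + 1)` up to squares.** -/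
theorem disc_isom {M A : Matrix (Fin n) (Fin n) K} (hM : Mᵀ = M) (hA : Aᵀ * M * A = M)
    (hdet : M.det ≠ 0) (h1 : (A + 1).det ≠ 0) :
    ∃ c : K, M.det * ((A - 1).det * (A + 1).det) = c ^ 2 := by
  set C := M * A - Aᵀ * M with hC
  have hskew : Cᵀ = -C := by
    rw [hC, transpose_sub, transpose_mul, transpose_mul, transpose_transpose, hM, neg_sub]
  have hCA : C * A = M * ((A - 1) * (A + 1)) := by
    rw [hC, Matrix.sub_mul, hA]
    have : (A - 1) * (A + 1) = A * A - 1 := by
      rw [Matrix.sub_mul, Matrix.mul_add, Matrix.one_mul, Matrix.mul_one]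
      abel
    rw [this, Matrix.mul_sub, Matrix.mul_one, Matrix.mul_assoc]
  have hd := congrArg Matrix.det hCA
  rw [det_mul, det_mul, det_mul, det_isom_one hA hdet h1, mul_one] at hd
  refine ⟨Helper929.pf n C, ?_⟩
  rw [← hd]
  have h := Helper929.pf_sq n C (fun i j => by
    have := congrFun (congrFun hskew i) j
    rw [transpose_apply, Matrix.neg_apply] at this
    rw [this, neg_neg])
  exact h.symm

end Pool.Agent.X305.PI
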